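import Mathlib

/-!
The poset of finite subsets of the positive integers supports no constant rate distribution.

Let `μ` be a probability measure on the countable set `S` of finite subsets of `ℕ+`, with density
`f x = μ {x} > 0` and upper probability function `F x = μ {y | x ⊆ y}`, and suppose
`f x = α F x` for all `x`. Iterating `F = f / α` along chains gives, for every `n`,
`∑_{y ⊇ x} n^{|y \ x|} f y = α^{-n} f x`. Comparing the cases `x = ∅` and `x = {i}` one gets
`n f {i} ≤ f ∅` for all `n`, hence `f {i} = 0`, a contradiction.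
-/

namespace Pool.Agent.Results.MP_e3a9f0_pr.NoConstantRate

open MeasureTheory
open scoped ENNReal

/-- the weighted sum over the supersets of `x` -/
noncomputable def S (f : Finset ℕ+ → ℝ≥0∞) (n : ℕ) (x : Finset ℕ+) : ℝ≥0∞ :=
  ∑' y, if x ⊆ y then (n : ℝ≥0∞) ^ (y \ x).card * f y else 0

lemma S_zero (f : Finset ℕ+ → ℝ≥0∞) (x : Finset ℕ+) : S f 0 x = f x := by
  classical
  rw [S, tsum_eq_single x]
  · simp
  · intro y hy
    by_cases h : x ⊆ y
    · rw [if_pos h]
      have hc : (y \ x).card ≠ 0 := by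
        intro h0
        rw [Finset.card_eq_zero, Finset.sdiff_eq_empty_iff_subset] at h0
        exact hy (Finset.Subset.antisymm h0 h)
      simp [hc]
    · rw [if_neg h]

lemma tsum_interval (n : ℕ) (x y : Finset ℕ+) (h : x ⊆ y) :
    ∑' z : Finset ℕ+, (if x ⊆ z ∧ z ⊆ y then (n : ℝ≥0∞) ^ (y \ z).card else 0) =
      ((n + 1 : ℕ) : ℝ≥0∞) ^ (y \ x).card := by
  classical
  have h1 : ∑' z : Finset ℕ+, (if x ⊆ z ∧ z ⊆ y then (n : ℝ≥0∞) ^ (y \ z).card else 0) =
      ∑ z ∈ Finset.Icc x y, (n : ℝ≥0∞) ^ (y \ z).card := by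
    rw [tsum_eq_sum (s := Finset.Icc x y)]
    · apply Finset.sum_congr rfl
      intro z hz
      rw [Finset.mem_Icc] at hz
      rw [if_pos ⟨hz.1, hz.2⟩]
    · intro z hz
      rw [Finset.mem_Icc] at hz
      rw [if_neg]
      exact fun hh => hz ⟨hh.1, hh.2⟩
  rw [h1]
  have h2 := Finset.sum_pow_mul_eq_add_pow (n : ℝ≥0∞) 1 (y \ x)
  rw [Nat.cast_add, Nat.cast_one, ← h2]
  apply Finset.sum_bij (fun z _ => y \ z)
  · intro z hz
    rw [Finset.mem_Icc] at hz
    rw [Finset.mem_powerset]
    exact Finset.sdiff_subset_sdiff (le_refl _) hz.1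
  · intro z hz w hw hzw
    rw [Finset.mem_Icc] at hz hw
    have e1 : z = y \ (y \ z) := (Finset.sdiff_sdiff_eq_self hz.2).symm
    have e2 : w = y \ (y \ w) := (Finset.sdiff_sdiff_eq_self hw.2).symm
    rw [e1, e2, hzw]
  · intro t ht
    rw [Finset.mem_powerset] at ht
    refine ⟨y \ t, ?_, ?_⟩
    · rw [Finset.mem_Icc]
      refine ⟨?_, Finset.sdiff_subset⟩
      intro a ha
      rw [Finset.mem_sdiff]
      refine ⟨h ha, fun hat => ?_⟩
      exact (Finset.mem_sdiff.1 (ht hat)).2 ha
    · exact Finset.sdiff_sdiff_eq_self (ht.trans Finset.sdiff_subset)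
  · intro z _
    simp

lemma S_succ (f : Finset ℕ+ → ℝ≥0∞) (n : ℕ) (x : Finset ℕ+) :
    S f (n + 1) x = ∑' z, if x ⊆ z then S f n z else 0 := by
  classical
  have h1 : ∀ z, (if x ⊆ z then S f n z else 0) =
      ∑' y, if x ⊆ z ∧ z ⊆ y then (n : ℝ≥0∞) ^ (y \ z).card * f y else 0 := by
    intro z
    by_cases h : x ⊆ z
    · simp only [h, if_true, true_and, S]
    · simp only [h, if_false, false_and, tsum_zero]
  simp_rw [h1]
  rw [ENNReal.tsum_comm, S]
  apply tsum_congr
  intro y
  by_cases h : x ⊆ y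
  · rw [if_pos h, ← tsum_interval n x y h, ← ENNReal.tsum_mul_right]
    apply tsum_congr
    intro z
    split_ifs <;> simp
  · rw [if_neg h]
    symm
    rw [ENNReal.tsum_eq_zero]
    intro z
    rw [if_neg]
    exact fun hh => h (hh.1.trans hh.2)

/-- **No constant rate distribution on the finite subsets of the positive integers.**
For every probability measure `μ` on the set of finite subsets of `ℕ+` (every set of finite
subsets is measurable) which charges every point, and every real constant `α`, there is a finite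
subset `x` with `f x ≠ α F x`, where `f x = μ {x}` and `F x = μ {y | x ⊆ y}`. -/
theorem result (μ : @Measure (Finset ℕ+) ⊤) (hμ : @IsProbabilityMeasure (Finset ℕ+) ⊤ μ)
    (hpos : ∀ x : Finset ℕ+, 0 < (μ {x}).toReal) (α : ℝ) :
    ∃ x : Finset ℕ+, (μ {x}).toReal ≠ α * (μ {y | x ⊆ y}).toReal := by
  classical
  by_contra hcon
  push Not at hcon
  letI : MeasurableSpace (Finset ℕ+) := ⊤
  haveI : IsProbabilityMeasure μ := hμ
  haveI : MeasurableSingletonClass (Finset ℕ+) := ⟨fun _ => trivial⟩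
  set f : Finset ℕ+ → ℝ≥0∞ := fun x => μ {x} with hf
  have hfne : ∀ x, f x ≠ ∞ := fun x => measure_ne_top μ _
  have hfpos : ∀ x, f x ≠ 0 := by
    intro x h0
    have := hpos x
    rw [show μ {x} = 0 from h0] at this
    simp at this
  have hα : 0 < α := by
    have h0 := hcon ∅
    have h1 : {y : Finset ℕ+ | ∅ ⊆ y} = Set.univ := by ext y; simp
    rw [h1, measure_univ] at h0
    have h2 := hpos ∅
    rw [h0] at h2
    simpa using h2
  set a : ℝ≥0∞ := ENNReal.ofReal α with ha
  have ha0 : a ≠ 0 := by rw [ha]; exact (ENNReal.ofReal_pos.2 hα).ne'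
  have hatop : a ≠ ∞ := ENNReal.ofReal_ne_top
  have hF : ∀ x, ∑' y, (if x ⊆ y then f y else 0) = a⁻¹ * f x := by
    intro x
    have h1 : ∑' y, (if x ⊆ y then f y else 0) = μ {y | x ⊆ y} := by
      rw [← Measure.tsum_indicator_apply_singleton μ {y | x ⊆ y} trivial]
      apply tsum_congr
      intro y
      simp only [Set.indicator, Set.mem_setOf_eq, hf]
    rw [h1]
    have h2 : f x = a * μ {y | x ⊆ y} := by
      have h3 := hcon x
      have h4 : ENNReal.ofReal (μ {x}).toReal = ENNReal.ofReal (α * (μ {y | x ⊆ y}).toReal) := by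
        rw [h3]
      rw [ENNReal.ofReal_toReal (measure_ne_top μ _), ENNReal.ofReal_mul hα.le,
        ENNReal.ofReal_toReal (measure_ne_top μ _)] at h4
      exact h4
    rw [h2, ← mul_assoc, ENNReal.inv_mul_cancel ha0 hatop, one_mul]
  have hS : ∀ n x, S f n x = (a⁻¹) ^ n * f x := by
    intro n
    induction n with
    | zero => intro x; rw [S_zero]; simp
    | succ n ih =>
      intro x
      rw [S_succ]
      have h1 : ∀ z, (if x ⊆ z then S f n z else 0) = (a⁻¹) ^ n * (if x ⊆ z then f z else 0) := by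
        intro z
        split_ifs
        · rw [ih z]
        · simp
      simp_rw [h1]
      rw [ENNReal.tsum_mul_left, hF x, pow_succ]
      ring
  have hb0 : ∀ n : ℕ, (a⁻¹) ^ n ≠ 0 := fun n => pow_ne_zero _ (ENNReal.inv_ne_zero.2 hatop)
  have hbtop : ∀ n : ℕ, (a⁻¹) ^ n ≠ ∞ := fun n => ENNReal.pow_ne_top (ENNReal.inv_ne_top.2 ha0)
  have key : ∀ n : ℕ, (n : ℝ≥0∞) * f {1} ≤ f ∅ := by
    intro n
    have h1 : (n : ℝ≥0∞) * S f n {1} ≤ S f n ∅ := by
      rw [S, S, ← ENNReal.tsum_mul_left]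
      apply ENNReal.tsum_le_tsum
      intro y
      rw [if_pos (Finset.empty_subset y), Finset.sdiff_empty]
      by_cases h : ({1} : Finset ℕ+) ⊆ y
      · rw [if_pos h]
        have h2 : (y \ {1}).card + 1 = y.card := by
          have h3 := Finset.card_sdiff_add_card_eq_card h
          rwa [Finset.card_singleton] at h3
        rw [← h2, pow_succ]
        apply le_of_eq
        ring
      · rw [if_neg h]
        simp
    rw [hS, hS] at h1
    have h2 : (a⁻¹) ^ n * ((n : ℝ≥0∞) * f {1}) ≤ (a⁻¹) ^ n * f ∅ := by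
      calc (a⁻¹) ^ n * ((n : ℝ≥0∞) * f {1}) = (n : ℝ≥0∞) * ((a⁻¹) ^ n * f {1}) := by ring
        _ ≤ _ := h1
    exact (ENNReal.mul_le_mul_iff_right (hb0 n) (hbtop n)).1 h2
  have h1 : (f ∅).toReal < (f ∅).toReal + 1 := by linarith
  obtain ⟨n, hn⟩ := exists_nat_gt ((f ∅).toReal / (f {1}).toReal)
  have hp1 : 0 < (f {1}).toReal := hpos {1}
  rw [div_lt_iff₀ hp1] at hn
  have h2 := key n
  have h3 := ENNReal.toReal_mono (hfne ∅) h2
  rw [ENNReal.toReal_mul, ENNReal.toReal_natCast] at h3
  linarith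

end Pool.Agent.Results.MP_e3a9f0_pr.NoConstantRate
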